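import Pool.Agent.H33.SMS.Targets2

/-!
# MP_ec36a5_nt, row CL: one residue class
-/

set_option autoImplicit false

namespace Pool.Agent.H94.SMS

open Pool.Agent.H33.SMS

theorem dvd_of_inA {M₁ M₂ n n' : ℕ} (h1 : 1 ≤ M₁) (hc : Nat.Coprime M₁ M₂)
    (hn : InA M₁ M₂ n) (hn' : InA M₁ M₂ n') (hle : n ≤ n') : M₁ * M₂ ∣ n' - n := by
  refine hc.mul_dvd_of_dvd_of_dvd ?_ (Nat.dvd_sub hn'.1 hn.1)
  rcases Nat.eq_zero_or_pos (n' - n) with h0 | h0
  · rw [h0]
    exact dvd_zero _
  · refine (Nat.factorization_prime_le_iff_dvd (by omega) h0.ne').1 fun p hp => ?_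
    by_cases hpM : p ∣ M₁
    · rw [Nat.factorization_def _ hp]
      refine (hp.pow_dvd_iff_le_factorization h0.ne').1 ?_
      obtain ⟨a1, a2⟩ := hn.2 p hp hpM
      obtain ⟨b1, b2⟩ := hn'.2 p hp hpM
      have h3 := Nat.dvd_sub b2 a2
      have h4 : n' - p * (padicValNat p M₁ - 1) - (n - p * (padicValNat p M₁ - 1)) = n' - n := by
        omega
      rwa [h4] at h3
    · rw [Nat.factorization_eq_zero_of_not_dvd hpM]
      exact Nat.zero_le _

theorem pf_CL : T_CL := by
  classical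
  intro M₁ M₂ N h1 h2 hc
  set M := M₁ * M₂ with hM
  have hM0 : 0 < M := Nat.mul_pos h1 h2
  have hcard : ((Finset.Icc 1 N).filter (fun n => InA M₁ M₂ n)).card ≤
      (Finset.range (N / M + 1)).card := by
    refine Finset.card_le_card_of_injOn (fun n => n / M) ?_ ?_
    · intro n hn
      rw [Finset.mem_coe, Finset.mem_filter, Finset.mem_Icc] at hn
      rw [Finset.mem_coe, Finset.mem_range]
      exact Nat.lt_succ_of_le (Nat.div_le_div_right hn.1.2)
    · have key : ∀ n n' : ℕ, InA M₁ M₂ n → InA M₁ M₂ n' → n ≤ n' → n / M = n' / M → n = n' := by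
        intro n n' hn hn' hle he
        obtain ⟨c, hcc⟩ := dvd_of_inA h1 hc hn hn' hle
        rw [← hM] at hcc
        have h3 : n' = n + M * c := by omega
        rw [h3, Nat.add_mul_div_left _ _ hM0] at he
        have h4 : c = 0 := by omega
        rw [h3, h4, mul_zero, add_zero]
      intro n hn n' hn' he
      rw [Finset.mem_coe, Finset.mem_filter] at hn hn'
      rcases le_total n n' with hle | hle
      · exact key n n' hn.2 hn'.2 hle he
      · exact (key n' n hn'.2 hn.2 hle he.symm).symm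
  rw [Finset.card_range] at hcard
  have h3 : ((((Finset.Icc 1 N).filter (fun n => InA M₁ M₂ n)).card : ℕ) : ℝ) ≤
      ((N / M + 1 : ℕ) : ℝ) := by exact_mod_cast hcard
  refine h3.trans ?_
  push_cast
  have h4 : ((N / M : ℕ) : ℝ) ≤ (N : ℝ) / ((M : ℕ) : ℝ) := Nat.cast_div_le
  rw [hM] at h4
  push_cast at h4
  linarith

end Pool.Agent.H94.SMS
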